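import Pool.Agent.helper53.DC.SpecK

/-! Module K10: cocompactness. -/

set_option autoImplicit false

namespace Pool.Agent.helper71.DC

open Pool.Agent.helper53.DC

theorem K10_hull {B W : Type} [Group W] {M : CoxeterMatrix B} (cs : CoxeterSystem M W)
    (hA5 : A5_stmt) (p z : W) (hz : z ∈ (cw cs).hull {p}) : z = p := by
  classical
  have h1 : {r | (cw cs).Sep r z p} = ∅ := by
    rw [Set.eq_empty_iff_forall_notMem]
    intro r hr
    have h2 := hz r (decide (p ∈ (cw cs).H r)) (by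
      intro q hq
      rw [Set.mem_singleton_iff] at hq
      subst hq
      show _ ↔ _
      rw [decide_eq_true_iff])
    apply hr
    have h3 : z ∈ (cw cs).H r ↔ decide (p ∈ (cw cs).H r) = true := h2
    rw [decide_eq_true_iff] at h3
    exact h3
  have h2 := (hA5 cs z p).2
  rw [h1, Set.ncard_empty] at h2
  exact (dd_eq_zero cs).1 h2.symm

theorem K10_sep {B W : Type} [Group W] {M : CoxeterMatrix B} (cs : CoxeterSystem M W)
    (hA3 : A3_stmt) (v : Wall cs) (z : W) (hz : z ∈ Car cs v) :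
    (cw cs).Sep v z (v.1 * z) ∧ dd cs z (v.1 * z) = 1 := by
  obtain ⟨i, hi⟩ := hz
  rw [hi]
  refine ⟨(hA3 cs v z i).2 ?_, dd_simple cs z i⟩
  apply Subtype.ext
  rw [wall_val, ← hi]
  group

theorem K10 (hK7 : K7_stmt) (hK8 : K8_stmt) (hK9 : K9_stmt) (hM5 : M5_stmt) (hM5b : M5b_stmt)
    (hM6 : M6_stmt) (hL5 : L5_stmt) (hL3 : L3_stmt) (hA3 : A3_stmt) (hA5 : A5_stmt)
    (hA6 : A6_stmt) (hA11 : A11_stmt) (hA20 : A20_stmt) (hW5 : W5_stmt) (hW6 : W6_stmt) :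
    K10_stmt := by
  classical
  intro B W _ _ M cs δ hδ H m g0 w w' c wm hdeep hcr hG0 hm hdev hwm
  have hfin : Finite (Lab cs H) := hA20 cs H hdeep.fin
  obtain ⟨ρ, hρ⟩ := hK9 cs δ hδ (g0 + 1)
  have hgood : (cw (ra (labG cs H))).Good := hA6 (ra (labG cs H))
  refine ⟨(ρ + 2) * Nat.card (Lab cs H), ?_⟩
  intro y hy
  have hcov := hM6 (labG cs H) ((cw (ra (labG cs H))).hull (c '' XK cs H w w'))
    {b | ∃ x ∈ XK cs H w w', b = (cw (ra (labG cs H))).Thick {c x} (ρ + 2)} (by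
      rintro b ⟨x, hx, rfl⟩
      exact (hW5 _ hgood {c x} (ρ + 2)).1) (by
      intro F hF hFC
      -- the walls of `F` come from walls of `W`
      have h1 : ∀ f ∈ F, ∃ v : Wall cs, f = wm v ∧ ∃ x ∈ XK cs H w w', ∃ x' ∈ XK cs H w w',
          (cw cs).Sep v x x' := by
        intro f hf
        have h2 := ((hW6 (cw (ra (labG cs H))) (c '' XK cs H w w')).2.2.2.1 f).1 (hFC f hf)
        obtain ⟨_, ⟨x, hx, rfl⟩, _, ⟨x', hx', rfl⟩, hs⟩ := h2
        obtain ⟨r, rfl⟩ := hwm.all f x x' hs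
        exact ⟨r, rfl, x, hx, x', hx', (hwm.sep r x x').1 hs⟩
      have h2 : ∀ f : Wall (ra (labG cs H)), ∃ v : Wall cs, f ∈ F → f = wm v ∧
          ∃ x ∈ XK cs H w w', ∃ x' ∈ XK cs H w w', (cw cs).Sep v x x' := by
        intro f
        by_cases hf : f ∈ F
        · obtain ⟨v, hv⟩ := h1 f hf
          exact ⟨v, fun _ => hv⟩
        · exact ⟨w, fun h => absurd h hf⟩
      choose φ hφ using h2
      have hcross := (hL5 cs H m c wm hdeep hdev hwm).1
      have hF' : ∀ v ∈ F.image φ, ∀ v' ∈ F.image φ, v ≠ v' → (cw cs).Cross v v' := by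
        intro v hv v' hv' hne
        obtain ⟨f, hf, rfl⟩ := Finset.mem_image.1 hv
        obtain ⟨f', hf', rfl⟩ := Finset.mem_image.1 hv'
        have h3 := hF f hf f' hf' (fun h => hne (by rw [h]))
        rw [(hφ f hf).1, (hφ f' hf').1] at h3
        exact (hcross _ _).1 h3
      obtain ⟨u, hu, hns⟩ := hK8 cs H m g0 w w' hdeep hcr hG0 hm (F.image φ) hF' (by
        intro v hv
        obtain ⟨f, hf, rfl⟩ := Finset.mem_image.1 hv
        obtain ⟨-, x, hx, x', hx', hs⟩ := hφ f hf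
        exact hK7 cs H w w' hcr (φ f) x x' hx hx' hs)
      obtain ⟨x, hx, hD⟩ := hρ u (F.image φ) hF' hns
      have hxK : x ∈ XK cs H w w' := ⟨u, hu, hx⟩
      refine ⟨_, ⟨x, hxK, rfl⟩, ⟨c x, (hW5 _ hgood {c x} (ρ + 2)).2.1 rfl,
        (hW6 (cw (ra (labG cs H))) (c '' XK cs H w w')).2.1 ⟨x, hxK, rfl⟩⟩, ?_⟩
      intro f hf
      have hv : φ f ∈ F.image φ := Finset.mem_image_of_mem φ hf
      have hDf := hD (φ f) hv
      obtain ⟨z, hz, hzd, -⟩ := hA11 cs (φ f) x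
      obtain ⟨hsz, hdz⟩ := K10_sep cs hA3 (φ f) z hz
      have hL := hL3 cs H m c hdeep hdev
      refine ⟨c z, hM5b (ra (labG cs H)) {c x} (ρ + 2) (c z) (c x) rfl ?_,
        c ((φ f).1 * z), hM5b (ra (labG cs H)) {c x} (ρ + 2) (c ((φ f).1 * z)) (c x) rfl ?_, ?_⟩
      · rw [hL, dd_comm]
        omega
      · rw [hL, dd_comm]
        have h5 := dd_tri cs x z ((φ f).1 * z)
        omega
      · have h9 := (hwm.sep (φ f) z ((φ f).1 * z)).2 hsz
        rw [← (hφ f hf).1] at h9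
        exact h9)
  obtain ⟨b, ⟨x, hx, rfl⟩, hyb⟩ := Set.mem_sUnion.1 (hcov hy)
  refine ⟨x, hx, ?_⟩
  have h6 := hW6 (cw (ra (labG cs H))) {c x}
  have h7 := (hW5 _ hgood {c x} (ρ + 2)).2.2.2 _ h6.2.1 hyb
  obtain ⟨z, hz, hd⟩ := hM5 (labG cs H) ((cw (ra (labG cs H))).hull {c x}) (ρ + 2) h6.1
    ⟨c x, h6.2.1 rfl⟩ y h7
  have h8 := K10_hull (ra (labG cs H)) hA5 (c x) z hz
  rw [h8] at hd
  rw [dd_comm]
  exact hd

end Pool.Agent.helper71.DC
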