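import Pool.Agent.helper53.DC.SpecK

/-! Module K4: Helly property of subtrees. -/

set_option autoImplicit false

namespace Pool.Agent.helper71.DC

open Pool.Agent.helper53.DC

theorem K4_append {V : Type} {T : SimpleGraph V} {a x : V} (q : T.Walk a x) :
    ∀ {b : V} (r : T.Walk x b), q.IsPath → r.IsPath →
      (∀ y ∈ q.support, y ∈ r.support → y = x) → (q.append r).IsPath := by
  induction q with
  | nil =>
    intro b r _ hr _
    simpa using hr
  | @cons u v w h q ih =>
    intro b r hq hr hd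
    rw [SimpleGraph.Walk.cons_isPath_iff] at hq
    rw [SimpleGraph.Walk.cons_append, SimpleGraph.Walk.cons_isPath_iff]
    refine ⟨ih r hq.1 hr (fun y hy hy' => hd y (by
      rw [SimpleGraph.Walk.support_cons]
      exact List.mem_cons_of_mem _ hy) hy'), ?_⟩
    intro hu
    rcases (SimpleGraph.Walk.mem_support_append_iff _ _).1 hu with h1 | h1
    · exact hq.2 h1
    · have h2 := hd u (SimpleGraph.Walk.start_mem_support _) h1
      apply hq.2
      rw [h2]
      exact SimpleGraph.Walk.end_mem_support q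

theorem K4_first {V : Type} {T : SimpleGraph V} (S : Set V) {c a : V} (q : T.Walk c a) :
    q.IsPath → a ∈ S → ∃ x ∈ S, x ∈ q.support ∧ ∃ q' : T.Walk c x, q'.IsPath ∧
      (∀ y ∈ q'.support, y ∈ q.support) ∧ ∀ y ∈ q'.support, y ∈ S → y = x := by
  classical
  induction q with
  | @nil u =>
    intro _ ha
    refine ⟨u, ha, by simp, SimpleGraph.Walk.nil, SimpleGraph.Walk.IsPath.nil, by simp, ?_⟩
    intro y hy _
    simpa using hy
  | @cons u v w h q ih =>
    intro hq ha
    rw [SimpleGraph.Walk.cons_isPath_iff] at hq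
    by_cases hu : u ∈ S
    · refine ⟨u, hu, SimpleGraph.Walk.start_mem_support _, SimpleGraph.Walk.nil,
        SimpleGraph.Walk.IsPath.nil, ?_, ?_⟩
      · intro y hy
        have : y = u := by simpa using hy
        rw [this]
        exact SimpleGraph.Walk.start_mem_support _
      · intro y hy _
        simpa using hy
    · obtain ⟨x, hx, hxq, q', hq', hsub, huniq⟩ := ih hq.1 ha
      refine ⟨x, hx, by
        rw [SimpleGraph.Walk.support_cons]
        exact List.mem_cons_of_mem _ hxq, SimpleGraph.Walk.cons h q', ?_, ?_, ?_⟩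
      · rw [SimpleGraph.Walk.cons_isPath_iff]
        exact ⟨hq', fun h1 => hq.2 (hsub u h1)⟩
      · intro y hy
        rw [SimpleGraph.Walk.support_cons] at hy ⊢
        rcases List.mem_cons.1 hy with h1 | h1
        · rw [h1]
          exact List.mem_cons_self
        · exact List.mem_cons_of_mem _ (hsub y h1)
      · intro y hy hyS
        rw [SimpleGraph.Walk.support_cons] at hy
        rcases List.mem_cons.1 hy with h1 | h1
        · rw [h1] at hyS
          exact absurd hyS hu
        · exact huniq y h1 hyS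

/-- a set is convex for paths -/
def K4_C {V : Type} (T : SimpleGraph V) (A : Set V) : Prop :=
  ∀ a ∈ A, ∀ b ∈ A, ∀ p : T.Walk a b, p.IsPath → ∀ c ∈ p.support, c ∈ A

theorem K4_three {V : Type} (T : SimpleGraph V) (A B C : Set V) (hA : K4_C T A) (hB : K4_C T B)
    (hC : K4_C T C) (hBr : ∀ a ∈ B, ∀ b ∈ B, T.Reachable a b)
    (hCr : ∀ a ∈ C, ∀ b ∈ C, T.Reachable a b) (hBC : (B ∩ C).Nonempty) (hAC : (A ∩ C).Nonempty)
    (hAB : (A ∩ B).Nonempty) : (A ∩ B ∩ C).Nonempty := by
  classical
  obtain ⟨a, haB, haC⟩ := hBC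
  obtain ⟨b, hbA, hbC⟩ := hAC
  obtain ⟨c, hcA, hcB⟩ := hAB
  obtain ⟨p, hp⟩ := (hCr a haC b hbC).exists_isPath
  obtain ⟨q, hq⟩ := (hBr c hcB a haB).exists_isPath
  obtain ⟨x, hx, hxq, q', hq', -, huniq⟩ := K4_first {y | y ∈ p.support} q hq
    (SimpleGraph.Walk.start_mem_support p)
  have hxp : x ∈ p.support := hx
  have hr : (p.dropUntil x hxp).IsPath := hp.dropUntil hxp
  have h1 : (q'.append (p.dropUntil x hxp)).IsPath := by
    apply K4_append q' _ hq' hr
    intro y hy hy'
    exact huniq y hy (SimpleGraph.Walk.support_dropUntil_subset_support p hxp hy')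
  refine ⟨x, ⟨hA c hcA b hbA _ h1 x ?_, hB c hcB a haB q hq x hxq⟩, hC a haC b hbC p hp x hxp⟩
  rw [SimpleGraph.Walk.mem_support_append_iff]
  exact Or.inl (SimpleGraph.Walk.end_mem_support q')

theorem K4_aux {V ι : Type} (T : SimpleGraph V) (F : Finset ι) : ∀ (A : ι → Set V), F.Nonempty →
    (∀ i ∈ F, K4_C T (A i)) → (∀ i ∈ F, ∀ j ∈ F, (A i ∩ A j).Nonempty) →
    (∀ i ∈ F, ∀ a ∈ A i, ∀ b ∈ A i, T.Reachable a b) → ∃ x, ∀ i ∈ F, x ∈ A i := by
  classical
  induction F using Finset.induction_on with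
  | empty => intro A h; exact absurd h (by simp)
  | insert i0 F hi0 ih =>
    intro A _ hC hI hR
    by_cases hF : F.Nonempty
    · obtain ⟨x, hx⟩ := ih (fun j => A i0 ∩ A j) hF (by
        intro j hj a ha b hb p hp c hc
        exact ⟨hC i0 (Finset.mem_insert_self _ _) a ha.1 b hb.1 p hp c hc,
          hC j (Finset.mem_insert_of_mem hj) a ha.2 b hb.2 p hp c hc⟩) (by
        intro j hj k hk
        have h1 := K4_three T (A i0) (A j) (A k) (hC i0 (Finset.mem_insert_self _ _))
          (hC j (Finset.mem_insert_of_mem hj)) (hC k (Finset.mem_insert_of_mem hk))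
          (hR j (Finset.mem_insert_of_mem hj)) (hR k (Finset.mem_insert_of_mem hk))
          (hI j (Finset.mem_insert_of_mem hj) k (Finset.mem_insert_of_mem hk))
          (hI i0 (Finset.mem_insert_self _ _) k (Finset.mem_insert_of_mem hk))
          (hI i0 (Finset.mem_insert_self _ _) j (Finset.mem_insert_of_mem hj))
        obtain ⟨y, ⟨h2, h3⟩, h4⟩ := h1
        exact ⟨y, ⟨h2, h3⟩, ⟨h2, h4⟩⟩) (by
        intro j hj a ha b hb
        exact hR i0 (Finset.mem_insert_self _ _) a ha.1 b hb.1)
      obtain ⟨j, hj⟩ := hF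
      refine ⟨x, fun i hi => ?_⟩
      rcases Finset.mem_insert.1 hi with h1 | h1
      · rw [h1]
        exact (hx j hj).1
      · exact (hx i h1).2
    · rw [Finset.not_nonempty_iff_eq_empty] at hF
      subst hF
      obtain ⟨x, hx, -⟩ := hI i0 (by simp) i0 (by simp)
      refine ⟨x, fun i hi => ?_⟩
      have : i = i0 := by simpa using hi
      rw [this]
      exact hx

theorem K4 : K4_stmt := by
  intro V ι T _ F A hF hC hI hR
  exact K4_aux T F A hF hC hI hR

end Pool.Agent.helper71.DC
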