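import Pool.Agent.helper53.DC.SpecV

/-! Module V1: in a forest the parity count depends only on the end points. -/

set_option autoImplicit false

namespace Pool.Agent.helper71.DC

open Pool.Agent.helper53.DC

theorem V1_nil {V E : Type} {T : SimpleGraph V} (cl : V → V → E) (u : V) :
    cnt cl (SimpleGraph.Walk.nil : T.Walk u u) = 0 := by
  funext e
  simp [cnt]

theorem V1_cons {V E : Type} {T : SimpleGraph V} (cl : V → V → E) {u v w : V} (h : T.Adj u v)
    (p : T.Walk v w) : cnt cl (SimpleGraph.Walk.cons h p) =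
      cnt cl (SimpleGraph.Walk.cons h SimpleGraph.Walk.nil) + cnt cl p := by
  funext e
  simp only [cnt, SimpleGraph.Walk.darts_cons, SimpleGraph.Walk.darts_nil, Pi.add_apply,
    List.countP_cons, List.countP_nil]
  push_cast
  ring

theorem V1_append {V E : Type} {T : SimpleGraph V} (cl : V → V → E) {u v w : V} (p : T.Walk u v)
    (q : T.Walk v w) : cnt cl (p.append q) = cnt cl p + cnt cl q := by
  funext e
  simp only [cnt, SimpleGraph.Walk.darts_append, Pi.add_apply, List.countP_append]
  push_cast
  ring

theorem V1_symm {V E : Type} {T : SimpleGraph V} (cl : V → V → E) (hcl : ∀ u v, cl u v = cl v u)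
    {u v : V} (h : T.Adj u v) : cnt cl (SimpleGraph.Walk.cons h SimpleGraph.Walk.nil) =
      cnt cl (SimpleGraph.Walk.cons h.symm SimpleGraph.Walk.nil) := by
  funext e
  simp only [cnt, SimpleGraph.Walk.darts_cons, SimpleGraph.Walk.darts_nil, List.countP_cons,
    List.countP_nil]
  rw [hcl u v]

theorem V1_two {E : Type} (a : E → ZMod 2) : a + a = 0 := by
  funext e
  exact CharTwo.add_self_eq_zero (a e)

theorem V1_path {V E : Type} (T : SimpleGraph V) (hT : T.IsAcyclic) (cl : V → V → E)
    (hcl : ∀ u v, cl u v = cl v u) {u v : V} (p : T.Walk u v) :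
    ∀ q : T.Walk u v, q.IsPath → cnt cl p = cnt cl q := by
  classical
  induction p with
  | nil =>
    intro q hq
    rw [SimpleGraph.Walk.isPath_iff_eq_nil] at hq
    rw [hq]
  | @cons u u' v h p ih =>
    intro q hq
    obtain ⟨q', hq'⟩ := (SimpleGraph.Walk.reachable p).exists_isPath
    rw [V1_cons, ih q' hq']
    by_cases hu : u ∈ q'.support
    · have h1 : q' = (q'.takeUntil u hu).append (q'.dropUntil u hu) :=
        (SimpleGraph.Walk.take_spec q' hu).symm
      have h2 : (⟨q'.takeUntil u hu, hq'.takeUntil hu⟩ : T.Path u' u) =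
          ⟨SimpleGraph.Walk.cons h.symm SimpleGraph.Walk.nil, by
            rw [SimpleGraph.Walk.cons_isPath_iff]
            refine ⟨SimpleGraph.Walk.IsPath.nil, ?_⟩
            intro h3
            have h4 : u' = u := by simpa using h3
            exact h.ne h4.symm⟩ := hT.path_unique _ _
      have h3 : q'.takeUntil u hu = SimpleGraph.Walk.cons h.symm SimpleGraph.Walk.nil :=
        congrArg Subtype.val h2
      have h4 : (⟨q'.dropUntil u hu, hq'.dropUntil hu⟩ : T.Path u v) = ⟨q, hq⟩ :=
        hT.path_unique _ _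
      have h5 : q'.dropUntil u hu = q := congrArg Subtype.val h4
      rw [h1, V1_append, h3, h5, V1_symm cl hcl h, ← add_assoc, V1_two, zero_add]
    · have h1 : (⟨SimpleGraph.Walk.cons h q', by
          rw [SimpleGraph.Walk.cons_isPath_iff]
          exact ⟨hq', hu⟩⟩ : T.Path u v) = ⟨q, hq⟩ := hT.path_unique _ _
      have h2 : SimpleGraph.Walk.cons h q' = q := congrArg Subtype.val h1
      rw [← h2, ← V1_cons]

theorem V1 : V1_stmt := by
  intro V E T hT cl hcl u v p q
  obtain ⟨r, hr⟩ := (SimpleGraph.Walk.reachable p).exists_isPath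
  rw [V1_path T hT cl hcl p r hr, V1_path T hT cl hcl q r hr]

end Pool.Agent.helper71.DC
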