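import Pool.Agent.helper53.DC.SpecV

/-! Module V4b: coarser cosets. -/

set_option autoImplicit false

namespace Pool.Agent.helper71.DC

open Pool.Agent.helper53.DC

theorem V4b : V4b_stmt := by
  classical
  intro W _ H H' _ _ Φ Ψ hle hΦ hΨ
  -- `Φ` does not depend on the representative
  have h1 : ∀ g : W, Φ (Quotient.out (g : W ⧸ H')) = Φ g := by
    intro g
    have h2 : ((Quotient.out (g : W ⧸ H') : W) : W ⧸ H') = (g : W ⧸ H') := QuotientGroup.out_eq' _
    have h3 : g⁻¹ * Quotient.out (g : W ⧸ H') ∈ H' := QuotientGroup.eq.1 h2.symm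
    have h4 := hΦ g _ h3
    rw [mul_inv_cancel_left] at h4
    exact h4
  -- the projection
  let π : W ⧸ H' → W ⧸ H := fun q => ((Quotient.out q : W) : W ⧸ H)
  have hπ : ∀ g : W, π (g : W ⧸ H') = (g : W ⧸ H) := by
    intro g
    show ((Quotient.out (g : W ⧸ H') : W) : W ⧸ H) = (g : W ⧸ H)
    rw [QuotientGroup.eq]
    have h2 : ((Quotient.out (g : W ⧸ H') : W) : W ⧸ H') = (g : W ⧸ H') := QuotientGroup.out_eq' _
    exact hle (QuotientGroup.eq.1 h2)
  rw [← Finset.sum_fiberwise Finset.univ π]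
  apply Finset.sum_congr rfl
  intro q _
  set g : W := Quotient.out q with hg
  have hgq : (g : W ⧸ H) = q := QuotientGroup.out_eq' _
  obtain ⟨h, hh, hv, h0⟩ := hΨ g
  rw [Finset.sum_eq_single ((g * h : W) : W ⧸ H')]
  · rw [h1, hv]
  · intro q' hq' hne
    rw [Finset.mem_filter] at hq'
    set x : W := Quotient.out q' with hx
    have hxq : (x : W ⧸ H') = q' := QuotientGroup.out_eq' _
    have h2 : (x : W ⧸ H) = (g : W ⧸ H) := by
      rw [hgq]
      exact hq'.2
    have h3 : g⁻¹ * x ∈ H := QuotientGroup.eq.1 h2.symm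
    have h4 : h⁻¹ * (g⁻¹ * x) ∉ H' := by
      intro h5
      apply hne
      rw [← hxq, eq_comm, QuotientGroup.eq]
      have h6 : (g * h)⁻¹ * x = h⁻¹ * (g⁻¹ * x) := by group
      rw [h6]
      exact h5
    have h5 := h0 (g⁻¹ * x) h3 h4
    rw [mul_inv_cancel_left] at h5
    exact h5
  · intro hn
    exfalso
    apply hn
    rw [Finset.mem_filter]
    refine ⟨Finset.mem_univ _, ?_⟩
    rw [hπ, ← hgq, eq_comm, QuotientGroup.eq]
    rw [inv_mul_cancel_left]
    exact hh

end Pool.Agent.helper71.DC
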